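import Mathlib

/-!
Every `k`-crowded separable metric space contains a dense `σ`-compact `k`-crowded plastic subspace
(on which the identity is the only non-expansive bijection).
-/

namespace Pool.Agent.Results.MP_4aa5c9_gt.PlasticSubspace

open Set Topology Filter TopologicalSpace

universe u

/-- Every non-expansive bijection is an isometry. -/
def Plastic (X : Type u) [MetricSpace X] : Prop :=
  ∀ f : X → X, Function.Bijective f → (∀ x y, dist (f x) (f y) ≤ dist x y) →
    ∀ x y, dist (f x) (f y) = dist x y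

/-- Each nonempty open subset contains an uncountable compact subset. -/
def KCrowded (X : Type u) [TopologicalSpace X] : Prop :=
  ∀ U : Set X, IsOpen U → U.Nonempty → ∃ K ⊆ U, IsCompact K ∧ ¬ K.Countable

/-! ### Schemes -/

/-- The parent function. -/
def s (k : ℕ) : ℕ := (Nat.unpair k).1

lemma s_le (k : ℕ) : s k ≤ k := Nat.unpair_left_le k

lemma s_pair (i j : ℕ) : s (Nat.pair i j) = i := by simp [s]

section scheme

variable {Y : Type u} [MetricSpace Y]

/-- The points `x k` are chosen one after another, `x (k + 1)` being at a very small distance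
`D k` from `x (s k)`. -/
structure Scheme (x : ℕ → Y) (D : ℕ → ℝ) : Prop where
  pos : ∀ k, 0 < D k
  attach : ∀ k, dist (x (k + 1)) (x (s k)) = D k
  sep : ∀ k i j, i ≤ k → j ≤ k → i ≠ j → 16 * D k ≤ dist (x i) (x j)

lemma exists_next {K : Set Y} (hK : Perfect K) {δ : ℝ} (hδ : 0 < δ) (k : ℕ) (X : ℕ → Y)
    (h1 : ∀ i ≤ k, X i ∈ K) (h2 : ∀ i ≤ k, ∀ j ≤ k, i ≠ j → X i ≠ X j) :
    ∃ y ∈ K, y ≠ X (s k) ∧ dist y (X (s k)) ≤ δ ∧
      ∀ i ≤ k, ∀ j ≤ k, i ≠ j → 16 * dist y (X (s k)) ≤ dist (X i) (X j) := by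
  have ha : X (s k) ∈ K := h1 _ (s_le k)
  have hev : ∀ᶠ y in 𝓝 (X (s k)), dist y (X (s k)) ≤ δ ∧
      ∀ i ∈ Iic k, ∀ j ∈ Iic k, i ≠ j → 16 * dist y (X (s k)) ≤ dist (X i) (X j) := by
    have hball : ∀ ε : ℝ, 0 < ε → ∀ᶠ y in 𝓝 (X (s k)), dist y (X (s k)) < ε := fun ε hε =>
      Metric.ball_mem_nhds _ hε
    refine ((hball δ hδ).mono fun y hy => hy.le).and ?_
    rw [Filter.eventually_all_finite (Set.finite_Iic k)]
    intro i hi
    rw [Filter.eventually_all_finite (Set.finite_Iic k)]
    intro j hj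
    by_cases hij : i = j
    · exact Eventually.of_forall fun y h => absurd hij h
    · have hpos : 0 < dist (X i) (X j) := dist_pos.2 (h2 i hi j hj hij)
      refine (hball (dist (X i) (X j) / 16) (by positivity)).mono fun y hy _ => ?_
      linarith
  obtain ⟨y, ⟨hy1, hy2⟩, hy3⟩ := (preperfect_iff_nhds.1 hK.acc) _ ha _ hev
  exact ⟨y, hy2, hy3, hy1.1, fun i hi j hj => hy1.2 i hi j hj⟩

lemma exists_scheme {K : Set Y} (hK : Perfect K) (hne : K.Nonempty) (δ : ℕ → ℝ)
    (hδ : ∀ k, 0 < δ k) :
    ∃ (x : ℕ → Y) (D : ℕ → ℝ), Scheme x D ∧ (∀ i, x i ∈ K) ∧ ∀ k, D k ≤ δ k := by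
  classical
  obtain ⟨x0, hx0⟩ := hne
  have hn := fun k X (h1 : ∀ i ≤ k, X i ∈ K) (h2 : ∀ i ≤ k, ∀ j ≤ k, i ≠ j → X i ≠ X j) =>
    exists_next hK (hδ k) k X h1 h2
  let good : ℕ → (ℕ → Y) → Prop := fun k X =>
    (∀ i ≤ k, X i ∈ K) ∧ (∀ i ≤ k, ∀ j ≤ k, i ≠ j → X i ≠ X j)
  have hn' : ∀ k X, ∃ y, good k X → (y ∈ K ∧ y ≠ X (s k) ∧ dist y (X (s k)) ≤ δ k ∧
      ∀ i ≤ k, ∀ j ≤ k, i ≠ j → 16 * dist y (X (s k)) ≤ dist (X i) (X j)) := by
    intro k X
    by_cases h : good k X
    · obtain ⟨y, hy⟩ := hn k X h.1 h.2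
      exact ⟨y, fun _ => hy⟩
    · exact ⟨x0, fun h' => absurd h' h⟩
  choose next hnext using hn'
  let S : ℕ → (ℕ → Y) := fun k => Nat.rec (motive := fun _ => ℕ → Y) (fun _ => x0)
    (fun k X => Function.update X (k + 1) (next k X)) k
  have hS : ∀ k, S (k + 1) = Function.update (S k) (k + 1) (next k (S k)) := fun k => rfl
  have hSi : ∀ k i, i ≤ k → S k i = S i i := by
    intro k
    induction k with
    | zero =>
      intro i hi
      rw [Nat.le_zero.1 hi]
    | succ k ih =>
      intro i hi
      rcases Nat.lt_or_eq_of_le hi with h | h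
      · rw [hS, Function.update_of_ne (by omega)]
        exact ih i (by omega)
      · rw [h]
  have hgood : ∀ k, good k (S k) := by
    intro k
    induction k with
    | zero =>
      exact ⟨fun i _ => hx0, fun i hi j hj hij => absurd ((Nat.le_zero.1 hi).trans
        (Nat.le_zero.1 hj).symm) hij⟩
    | succ k ih =>
      obtain ⟨hy1, hy2, -, hy4⟩ := hnext k (S k) ih
      have hnew : ∀ i ≤ k, next k (S k) ≠ S k i := by
        intro i hi h
        by_cases his : i = s k
        · rw [his] at h
          exact hy2 h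
        · have h1 := hy4 i hi (s k) (s_le k) his
          rw [h] at h1
          have h2 : 0 < dist (S k i) (S k (s k)) := dist_pos.2 (ih.2 i hi _ (s_le k) his)
          linarith
      constructor
      · intro i hi
        rcases Nat.lt_or_eq_of_le hi with h | h
        · rw [hS, Function.update_of_ne (by omega)]
          exact ih.1 i (by omega)
        · rw [hS, h, Function.update_self]
          exact hy1
      · intro i hi j hj hij
        rw [hS]
        rcases Nat.lt_or_eq_of_le hi with h | h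
        · rcases Nat.lt_or_eq_of_le hj with h' | h'
          · rw [Function.update_of_ne (by omega), Function.update_of_ne (by omega)]
            exact ih.2 i (by omega) j (by omega) hij
          · rw [Function.update_of_ne (by omega), h', Function.update_self]
            exact (hnew i (by omega)).symm
        · rcases Nat.lt_or_eq_of_le hj with h' | h'
          · rw [h, Function.update_self, Function.update_of_ne (by omega)]
            exact hnew j (by omega)
          · exact absurd (h.trans h'.symm) hij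
  have hx : ∀ k, S (k + 1) (k + 1) = next k (S k) := fun k => by
    rw [hS, Function.update_self]
  refine ⟨fun i => S i i, fun k => dist (S (k + 1) (k + 1)) (S (s k) (s k)), ⟨?_, ?_, ?_⟩, ?_, ?_⟩
  · intro k
    obtain ⟨-, hy2, -, -⟩ := hnext k (S k) (hgood k)
    show 0 < dist (S (k + 1) (k + 1)) (S (s k) (s k))
    rw [hx, ← hSi k (s k) (s_le k)]
    exact dist_pos.2 hy2
  · intro k
    rfl
  · intro k i j hi hj hij
    obtain ⟨-, -, -, hy4⟩ := hnext k (S k) (hgood k)
    show 16 * dist (S (k + 1) (k + 1)) (S (s k) (s k)) ≤ dist (S i i) (S j j)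
    rw [hx, ← hSi k (s k) (s_le k), ← hSi k i hi, ← hSi k j hj]
    exact hy4 i hi j hj hij
  · intro i
    exact (hgood i).1 i le_rfl
  · intro k
    obtain ⟨-, -, hy3, -⟩ := hnext k (S k) (hgood k)
    show dist (S (k + 1) (k + 1)) (S (s k) (s k)) ≤ δ k
    rw [hx, ← hSi k (s k) (s_le k)]
    exact hy3

variable {x : ℕ → Y} {D : ℕ → ℝ}

lemma Scheme.decay (h : Scheme x D) (k : ℕ) : 16 * D (k + 1) ≤ D k := by
  rw [← h.attach k]
  have := s_le k
  exact h.sep (k + 1) (k + 1) (s k) le_rfl (by omega) (by omega)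

lemma Scheme.antitone (h : Scheme x D) : Antitone D :=
  antitone_nat_of_succ_le fun k => by
    have := h.decay k
    have := h.pos (k + 1)
    linarith

lemma Scheme.injective (h : Scheme x D) : Function.Injective x := by
  intro i j hij
  by_contra hne
  have h1 := h.sep (max i j) i j (le_max_left _ _) (le_max_right _ _) hne
  rw [hij, dist_self] at h1
  have := h.pos (max i j)
  linarith

lemma Scheme.near (h : Scheme x D) (k : ℕ) :
    ∀ j, k ≤ j → ∃ i ≤ k, dist (x j) (x i) ≤ 2 * D k - 2 * D j := by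
  intro j
  induction j using Nat.strong_induction_on with
  | _ j ih =>
    intro hkj
    rcases Nat.eq_or_lt_of_le hkj with hj | hj
    · exact ⟨k, le_rfl, by rw [← hj, dist_self]; linarith⟩
    · obtain ⟨j', rfl⟩ : ∃ j', j = j' + 1 := ⟨j - 1, by omega⟩
      have hp := s_le j'
      have h1 := h.attach j'
      have h2 := h.decay j'
      have h3 := h.pos (j' + 1)
      have h5 := h.pos j'
      by_cases hpk : s j' ≤ k
      · refine ⟨s j', hpk, ?_⟩
        rw [h1]
        have h4 := h.antitone (show k ≤ j' by omega)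
        linarith
      · obtain ⟨i, hi, hi'⟩ := ih (s j') (by omega) (by omega)
        refine ⟨i, hi, ?_⟩
        have h4 := h.antitone hp
        have h6 := dist_triangle (x (j' + 1)) (x (s j')) (x i)
        linarith

lemma Scheme.near' (h : Scheme x D) {y : Y} (hy : y ∈ closure (range x)) (k : ℕ) :
    ∃ i ≤ k, dist y (x i) ≤ 2 * D k := by
  have hcl : IsClosed (⋃ i ∈ Iic k, Metric.closedBall (x i) (2 * D k)) :=
    (Set.finite_Iic k).isClosed_biUnion fun i _ => Metric.isClosed_closedBall
  have hsub : range x ⊆ ⋃ i ∈ Iic k, Metric.closedBall (x i) (2 * D k) := by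
    rintro _ ⟨j, rfl⟩
    rcases le_total k j with hkj | hkj
    · obtain ⟨i, hi, hi'⟩ := h.near k j hkj
      have := h.pos j
      exact mem_iUnion₂.2 ⟨i, hi, Metric.mem_closedBall.2 (by linarith)⟩
    · refine mem_iUnion₂.2 ⟨j, hkj, Metric.mem_closedBall.2 ?_⟩
      rw [dist_self]
      have := h.pos k
      linarith
  obtain ⟨i, hi, hi'⟩ := mem_iUnion₂.1 (closure_minimal hsub hcl hy)
  exact ⟨i, hi, Metric.mem_closedBall.1 hi'⟩

lemma Scheme.uniq (h : Scheme x D) {y z : Y} {k i j : ℕ} (hi : i ≤ k) (hj : j ≤ k)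
    (hyi : dist y (x i) ≤ 2 * D k) (hzj : dist z (x j) ≤ 2 * D k) (hyz : dist y z < 12 * D k) :
    i = j := by
  by_contra hne
  have h1 := h.sep k i j hi hj hne
  have h2 := dist_triangle4 (x i) y z (x j)
  rw [dist_comm (x i) y] at h2
  linarith

lemma Scheme.tendsto (h : Scheme x D) {ε : ℝ} (hε : 0 < ε) : ∃ k, D k < ε := by
  have h1 : ∀ k, D k ≤ D 0 * (1 / 2 : ℝ) ^ k := by
    intro k
    induction k with
    | zero => simp
    | succ k ih =>
      have := h.decay k
      have := h.pos (k + 1)
      rw [pow_succ]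
      linarith
  obtain ⟨k, hk⟩ := exists_pow_lt_of_lt_one (div_pos hε (h.pos 0)) (show (1 / 2 : ℝ) < 1 by norm_num)
  refine ⟨k, (h1 k).trans_lt ?_⟩
  rw [lt_div_iff₀ (h.pos 0)] at hk
  linarith

lemma Scheme.parent_near (h : Scheme x D) {y : Y} {k : ℕ}
    (hy : dist y (x (k + 1)) ≤ 2 * D (k + 1)) : dist y (x (s k)) ≤ 2 * D k := by
  have h1 := dist_triangle y (x (k + 1)) (x (s k))
  have h2 := h.attach k
  have h3 := h.decay k
  have h4 := h.pos k
  linarith

/-- Every point of the closure is infinitely often near the parent. -/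
lemma Scheme.frequently (h : Scheme x D) {y : Y} (hy : y ∈ closure (range x)) (n : ℕ) :
    ∃ k ≥ n, dist y (x (s k)) ≤ 2 * D k := by
  by_contra hcon
  push Not at hcon
  obtain ⟨i, hi, hi'⟩ := h.near' hy n
  have hall : ∀ k ≥ n, dist y (x i) ≤ 2 * D k := by
    intro k hk
    induction k, hk using Nat.le_induction with
    | base => exact hi'
    | succ k hk ih =>
      obtain ⟨j, hj, hj'⟩ := h.near' hy (k + 1)
      rcases Nat.lt_or_eq_of_le hj with hlt | heq
      · have h1 : dist y (x j) ≤ 2 * D k := hj'.trans (by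
          have := h.antitone (Nat.le_succ k)
          linarith)
        have h2 : j = i := h.uniq (k := k) (by omega) (by omega) h1 ih (by
          rw [dist_self]
          have := h.pos k
          linarith)
        rwa [h2] at hj'
      · rw [heq] at hj'
        exact absurd (h.parent_near hj') (not_le.2 (hcon k hk))
  have hk := hcon (Nat.pair i n) (Nat.right_le_pair i n)
  rw [s_pair] at hk
  exact absurd (hall _ (Nat.right_le_pair i n)) (not_le.2 hk)

/-- Non-contracting self-maps of the closure are trivial. -/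
lemma Scheme.rigid (h : Scheme x D) (f : Y → Y)
    (hf : ∀ y ∈ closure (range x), f y ∈ closure (range x))
    (hd : ∀ y ∈ closure (range x), ∀ z ∈ closure (range x), dist y z ≤ dist (f y) (f z)) :
    ∀ y ∈ closure (range x), f y = y := by
  have hmem : ∀ i, x i ∈ closure (range x) := fun i => subset_closure (mem_range_self i)
  -- the permutation of the pieces
  have hstage : ∀ k, ∀ y ∈ closure (range x), dist y (x (s k)) ≤ 2 * D k →
      dist (f y) (x (s k)) ≤ 2 * D k := by
    intro k
    have hσ : ∀ i : Fin (k + 1), ∃ m : Fin (k + 1), dist (f (x i)) (x m) ≤ 2 * D k := fun i => by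
      obtain ⟨m, hm, hm'⟩ := h.near' (hf _ (hmem i)) k
      exact ⟨⟨m, by omega⟩, hm'⟩
    choose σ hσ using hσ
    have hinj : Function.Injective σ := by
      intro i j hij
      by_contra hne
      have hne' : (i : ℕ) ≠ j := fun h' => hne (Fin.ext h')
      have h1 := h.sep k i j (by omega) (by omega) hne'
      have h2 := hd _ (hmem i) _ (hmem j)
      have h3 := hσ i
      have h4 := hσ j
      rw [hij] at h3
      have h5 := dist_triangle_right (f (x i)) (f (x j)) (x (σ j))
      have := h.pos k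
      linarith
    have hsurj : Function.Surjective σ := Finite.surjective_of_injective hinj
    have hkey : ∀ y ∈ closure (range x), ∀ i : Fin (k + 1), dist y (x i) ≤ 2 * D k →
        dist (f y) (x (σ i)) ≤ 2 * D k := by
      intro y hy i hi
      obtain ⟨m, hm, hm'⟩ := h.near' (hf _ hy) k
      obtain ⟨j, hj⟩ := hsurj ⟨m, by omega⟩
      have hj' : (σ j : ℕ) = m := congrArg Fin.val hj
      by_cases hij : i = j
      · rw [hij, hj']
        exact hm'
      · exfalso
        have hij' : (i : ℕ) ≠ j := fun h' => hij (Fin.ext h')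
        have h1 := h.sep k i j (by omega) (by omega) hij'
        have h2 := hd _ hy _ (hmem j)
        have h3 := hσ j
        rw [hj'] at h3
        have h4 := dist_triangle_right (f y) (f (x j)) (x m)
        have h5 := dist_triangle_left (x i) (x j) y
        have := h.pos k
        linarith
    -- the parent piece is fixed
    have hsk := s_le k
    let t : Fin (k + 1) := ⟨s k, by omega⟩
    have hu : dist (f (x (s k))) (x (σ t)) ≤ 2 * D k := hkey _ (hmem _) t (by
      rw [dist_self]
      have := h.pos k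
      linarith)
    have hv : dist (f (x (k + 1))) (x (σ t)) ≤ 2 * D k := hkey _ (hmem _) t (by
      rw [h.attach k]
      have := h.pos k
      linarith)
    have hfix : (σ t : ℕ) = s k := by
      obtain ⟨a, ha, ha'⟩ := h.near' (hf _ (hmem (s k))) (k + 1)
      obtain ⟨b, hb, hb'⟩ := h.near' (hf _ (hmem (k + 1))) (k + 1)
      have hanti := h.antitone (Nat.le_succ k)
      have hσt : (σ t : ℕ) ≤ k := by have := (σ t).2; omega
      have hpos := h.pos k
      rcases Nat.lt_or_eq_of_le ha with ha1 | ha1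
      · have h1 : a = σ t := h.uniq (k := k) (by omega) hσt (ha'.trans (by linarith)) hu (by
          rw [dist_self]; linarith)
        rcases Nat.lt_or_eq_of_le hb with hb1 | hb1
        · exfalso
          have h2 : b = σ t := h.uniq (k := k) (by omega) hσt (hb'.trans (by linarith)) hv (by
            rw [dist_self]; linarith)
          have h3 := hd _ (hmem (s k)) _ (hmem (k + 1))
          rw [dist_comm (x (s k)), h.attach k] at h3
          rw [h1] at ha'
          rw [h2] at hb'
          have h4 := dist_triangle_right (f (x (s k))) (f (x (k + 1))) (x (σ t))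
          have h5 := h.decay k
          have h6 := h.pos (k + 1)
          linarith
        · rw [hb1] at hb'
          exact (h.uniq (k := k) hsk hσt (h.parent_near hb') hv (by
            rw [dist_self]; linarith)).symm
      · rw [ha1] at ha'
        exact (h.uniq (k := k) hsk hσt (h.parent_near ha') hu (by
          rw [dist_self]; linarith)).symm
    intro y hy hyk
    have h1 := hkey y hy t hyk
    rwa [hfix] at h1
  intro y hy
  by_contra hne
  have hpos : 0 < dist (f y) y := dist_pos.2 hne
  obtain ⟨n, hn⟩ := h.tendsto (show (0 : ℝ) < dist (f y) y / 4 by positivity)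
  obtain ⟨k, hk, hk'⟩ := h.frequently hy n
  have h1 := hstage k y hy hk'
  have h2 := dist_triangle_right (f y) y (x (s k))
  have h3 := h.antitone hk
  linarith

lemma Scheme.infinite (h : Scheme x D) {U : Set Y} (hU : IsOpen U)
    (hne : (U ∩ closure (range x)).Nonempty) : (U ∩ closure (range x)).Infinite := by
  obtain ⟨y, hyU, hy⟩ := hne
  obtain ⟨_, hxU, ⟨i, rfl⟩⟩ := mem_closure_iff.1 hy U hU hyU
  obtain ⟨ρ, hρ, hball⟩ := Metric.isOpen_iff.1 hU _ hxU
  obtain ⟨k0, hk0⟩ := h.tendsto hρ
  refine Set.infinite_of_injective_forall_mem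
    (f := fun j : ℕ => x (Nat.pair i (j + k0) + 1)) ?_ ?_
  · intro a b hab
    have h1 := h.injective hab
    have h2 : Nat.pair i (a + k0) = Nat.pair i (b + k0) := by omega
    have h3 := (Nat.pair_eq_pair.1 h2).2
    omega
  · intro j
    refine ⟨hball ?_, subset_closure (mem_range_self _)⟩
    have h1 := h.attach (Nat.pair i (j + k0))
    rw [s_pair] at h1
    rw [Metric.mem_ball, h1]
    have h2 : k0 ≤ Nat.pair i (j + k0) :=
      (Nat.le_add_left k0 j).trans (Nat.right_le_pair i (j + k0))
    exact (h.antitone h2).trans_lt hk0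

/-- `A` contains `N` points at mutual distances at least `δ`. -/
def Sep (A : Set Y) (N : ℕ) (δ : ℝ) : Prop :=
  ∃ t : Fin N → Y, (∀ i, t i ∈ A) ∧ ∀ i j, i ≠ j → δ ≤ dist (t i) (t j)

lemma Scheme.not_sep (h : Scheme x D) {k : ℕ} {δ : ℝ} (hk : 4 * D k < δ) :
    ¬ Sep (closure (range x)) (k + 2) δ := by
  rintro ⟨t, ht, ht'⟩
  have hc : ∀ i, ∃ m : Fin (k + 1), dist (t i) (x m) ≤ 2 * D k := fun i => by
    obtain ⟨m, hm, hm'⟩ := h.near' (ht i) k
    exact ⟨⟨m, by omega⟩, hm'⟩
  choose c hc using hc
  obtain ⟨i, j, hij, hcij⟩ := Fintype.exists_ne_map_eq_of_card_lt c (by simp)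
  have h1 := ht' i j hij
  have h2 := hc i
  have h3 := hc j
  rw [hcij] at h2
  have h4 := dist_triangle_right (t i) (t j) (x (c j))
  linarith

lemma exists_sep {A : Set Y} (hA : A.Infinite) (N : ℕ) : ∃ δ : ℝ, 0 < δ ∧ Sep A N δ := by
  have := hA.to_subtype
  let t : Fin N → A := fun i => Infinite.natEmbedding A i
  have ht : Function.Injective t := fun i j hij =>
    Fin.ext ((Infinite.natEmbedding A).injective hij)
  have hev : ∀ᶠ δ : ℝ in 𝓝[>] 0, ∀ i j : Fin N, i ≠ j → δ ≤ dist (t i : Y) (t j) := by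
    rw [eventually_all]
    intro i
    rw [eventually_all]
    intro j
    by_cases hij : i = j
    · exact Eventually.of_forall fun _ h' => absurd hij h'
    · have hpos : 0 < dist (t i : Y) (t j) := dist_pos.2 fun h' => hij (ht (Subtype.ext h'))
      exact (eventually_nhdsWithin_of_eventually_nhds (Iio_mem_nhds hpos)).mono
        fun δ hδ _ => le_of_lt hδ
  obtain ⟨δ, hδ, hδ'⟩ := (hev.and self_mem_nhdsWithin).exists
  exact ⟨δ, hδ', fun i => t i, fun i => (t i).2, hδ⟩

/-! ### Rigid thin sets -/

/-- Compact sets without isolated points on which the identity is the only non-contracting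
self-map. -/
structure Good (C : Set Y) : Prop where
  nonempty : C.Nonempty
  compact : IsCompact C
  infinite : ∀ U : Set Y, IsOpen U → (U ∩ C).Nonempty → (U ∩ C).Infinite
  rigid : ∀ f : Y → Y, (∀ y ∈ C, f y ∈ C) →
    (∀ y ∈ C, ∀ z ∈ C, dist y z ≤ dist (f y) (f z)) → ∀ y ∈ C, f y = y

/-- No nonempty relatively open subset of `C` is a non-expansive image of a subset of `C'`. -/
def Thick (C C' : Set Y) : Prop :=
  ∀ U : Set Y, IsOpen U → (U ∩ C).Nonempty → ∃ N δ, Sep (U ∩ C) N δ ∧ ¬ Sep C' N δ

lemma Sep.mono {A B : Set Y} (hAB : A ⊆ B) {N : ℕ} {δ : ℝ} (h : Sep A N δ) : Sep B N δ := by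
  obtain ⟨t, ht, ht'⟩ := h
  exact ⟨t, fun i => hAB (ht i), ht'⟩

lemma exists_good [SeparableSpace Y] (hY : KCrowded Y) {O : Set Y} (hO : IsOpen O)
    (hne : O.Nonempty) (S : Finset (Set Y)) (hS : ∀ C ∈ S, Good C) :
    ∃ C', Good C' ∧ C' ⊆ O ∧ ∀ C ∈ S, Thick C C' := by
  classical
  have hsc : SecondCountableTopology Y := UniformSpace.secondCountable_of_separable Y
  obtain ⟨K, hKO, hK, hKu⟩ := hY O hO hne
  obtain ⟨P, hP, hPne, hPK⟩ := exists_perfect_nonempty_of_isClosed_of_not_countable hK.isClosed hKu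
  let Q : Type u := {C // C ∈ S} × {b // b ∈ countableBasis Y}
  have hQ1 : Countable {b // b ∈ countableBasis Y} := (countable_countableBasis Y).to_subtype
  have hQ2 : Countable {C // C ∈ S} := inferInstance
  have hQ : Countable Q := inferInstanceAs (Countable ({C // C ∈ S} × {b // b ∈ countableBasis Y}))
  have hE : Encodable Q := Encodable.ofCountable Q
  have hδ : ∀ k : ℕ, ∃ δ : ℝ, 0 < δ ∧ ∀ q : Q, Encodable.encode q = k →
      (q.2.1 ∩ q.1.1).Nonempty → Sep (q.2.1 ∩ q.1.1) (k + 2) δ := by
    intro k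
    by_cases h : ∃ q : Q, Encodable.encode q = k ∧ (q.2.1 ∩ q.1.1).Nonempty
    · obtain ⟨q, hq, hq'⟩ := h
      obtain ⟨δ, hδ, hδ'⟩ := exists_sep ((hS q.1.1 q.1.2).infinite q.2.1
        (isOpen_of_mem_countableBasis q.2.2) hq') (k + 2)
      refine ⟨δ, hδ, fun q' hq1 _ => ?_⟩
      have h1 : q' = q := Encodable.encode_injective (hq1.trans hq.symm)
      rw [h1]
      exact hδ'
    · exact ⟨1, one_pos, fun q hq hq' => absurd ⟨q, hq, hq'⟩ h⟩
  choose δ hδ1 hδ2 using hδ
  obtain ⟨x, D, hx, hxP, hD⟩ := exists_scheme hP hPne (fun k => δ k / 5) fun k => by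
    have := hδ1 k
    positivity
  have hsub : closure (range x) ⊆ P := closure_minimal (by
    rintro _ ⟨i, rfl⟩
    exact hxP i) hP.closed
  refine ⟨closure (range x), ⟨⟨x 0, subset_closure (mem_range_self 0)⟩,
    hK.of_isClosed_subset isClosed_closure (hsub.trans hPK), fun U hU h => hx.infinite hU h,
    fun f hf hd => hx.rigid f hf hd⟩, (hsub.trans hPK).trans hKO, ?_⟩
  intro C hC U hU hUC
  obtain ⟨y, hyU, hyC⟩ := hUC
  obtain ⟨b, hb, hyb, hbU⟩ := (isBasis_countableBasis Y).exists_subset_of_mem_open hyU hU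
  let q : Q := (⟨C, hC⟩, ⟨b, hb⟩)
  refine ⟨Encodable.encode q + 2, δ (Encodable.encode q),
    (hδ2 _ q rfl ⟨y, hyb, hyC⟩).mono (inter_subset_inter_left _ hbU), hx.not_sep ?_⟩
  have h1 := hD (Encodable.encode q)
  have h2 := hδ1 (Encodable.encode q)
  have h3 : D (Encodable.encode q) ≤ δ (Encodable.encode q) / 5 := h1
  linarith

/-- The sequence of good sets. -/
lemma exists_seq [SeparableSpace Y] (hY : KCrowded Y) (O : ℕ → Set Y) (hO : ∀ n, IsOpen (O n))
    (hne : ∀ n, (O n).Nonempty) :
    ∃ C : ℕ → Set Y, (∀ n, Good (C n)) ∧ (∀ n, C n ⊆ O n) ∧ ∀ m n, m < n → Thick (C m) (C n) := by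
  classical
  have h1 : ∀ (n : ℕ) (S : Finset (Set Y)), ∃ C', (∀ C ∈ S, Good C) →
      (Good C' ∧ C' ⊆ O n ∧ ∀ C ∈ S, Thick C C') := by
    intro n S
    by_cases h : ∀ C ∈ S, Good C
    · obtain ⟨C', hC'⟩ := exists_good hY (hO n) (hne n) S h
      exact ⟨C', fun _ => hC'⟩
    · exact ⟨∅, fun h' => absurd h' h⟩
  choose G hG using h1
  let A : ℕ → Finset (Set Y) := fun n => Nat.rec (motive := fun _ => Finset (Set Y)) ∅
    (fun n S => insert (G n S) S) n
  have hA : ∀ n, A (n + 1) = insert (G n (A n)) (A n) := fun n => rfl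
  have hgood : ∀ n, ∀ C ∈ A n, Good C := by
    intro n
    induction n with
    | zero =>
      intro C hC
      exact absurd hC (Finset.notMem_empty C)
    | succ n ih =>
      intro C hC
      rw [hA, Finset.mem_insert] at hC
      rcases hC with rfl | hC
      · exact (hG n _ ih).1
      · exact ih C hC
  have hmono : ∀ m n, m ≤ n → A m ⊆ A n := by
    intro m n hmn
    induction n, hmn using Nat.le_induction with
    | base => exact Finset.Subset.refl _
    | succ n _ ih => exact ih.trans (by rw [hA]; exact Finset.subset_insert _ _)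
  refine ⟨fun n => G n (A n), fun n => (hG n _ (hgood n)).1, fun n => (hG n _ (hgood n)).2.1,
    fun m n hmn => (hG n _ (hgood n)).2.2 _ ?_⟩
  refine hmono (m + 1) n hmn ?_
  rw [hA]
  exact Finset.mem_insert_self _ _

/-! ### The identity is the only non-expansive bijection -/

lemma eq_id {C : ℕ → Set Y} (hC : ∀ n, Good (C n)) (hT : ∀ m n, m < n → Thick (C m) (C n))
    (f : (⋃ n, C n : Set Y) → (⋃ n, C n : Set Y)) (hf : Function.Bijective f)
    (hd : ∀ y z, dist (f y) (f z) ≤ dist y z) : f = id := by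
  classical
  have hcont : Continuous f := by
    rw [Metric.continuous_iff]
    intro y ε hε
    exact ⟨ε, hε, fun z hz => (hd z y).trans_lt hz⟩
  obtain ⟨g, hgf, hfg⟩ := Function.bijective_iff_has_inverse.1 hf
  have hgd : ∀ y z, dist y z ≤ dist (g y) (g z) := fun y z => by
    have := hd (g y) (g z)
    rwa [hfg, hfg] at this
  have hsub : ∀ n, C n ⊆ ⋃ n, C n := fun n => subset_iUnion C n
  -- the images of the pieces
  let P : ℕ → Set Y := fun n => (fun z : (⋃ n, C n : Set Y) => (f z : Y)) '' {z | (z : Y) ∈ C n}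
  have hP : ∀ n, IsClosed (P n) := by
    intro n
    have h1 : IsCompact {z : (⋃ n, C n : Set Y) | (z : Y) ∈ C n} := by
      rw [Subtype.isCompact_iff]
      have h2 : (Subtype.val '' {z : (⋃ n, C n : Set Y) | (z : Y) ∈ C n}) = C n := by
        refine Subset.antisymm ?_ fun y hy => ⟨⟨y, hsub n hy⟩, hy, rfl⟩
        rintro _ ⟨z, hz, rfl⟩
        exact hz
      rw [h2]
      exact (hC n).compact
    exact (h1.image (continuous_subtype_val.comp hcont)).isClosed
  have key : ∀ m, ∀ z : (⋃ n, C n : Set Y), (z : Y) ∈ C m → f z = z := by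
    intro m
    induction m using Nat.strong_induction_on with
    | _ m ih =>
      -- every point of `C m` is in the image of some `C n` with `n ≤ m`
      have hcomp : CompactSpace (C m) := isCompact_iff_compactSpace.1 (hC m).compact
      have hdense : Dense (⋃ n, interior ((Subtype.val : C m → Y) ⁻¹' (P n))) := by
        refine dense_iUnion_interior_of_closed
          (fun n => (hP n).preimage continuous_subtype_val) (eq_univ_of_forall fun y => ?_)
        have hyX : (y : Y) ∈ ⋃ n, C n := hsub m y.2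
        obtain ⟨n, hn⟩ := mem_iUnion.1 (g ⟨y, hyX⟩).2
        refine mem_iUnion.2 ⟨n, g ⟨y, hyX⟩, hn, ?_⟩
        show (f (g ⟨y, hyX⟩) : Y) = y
        rw [hfg]
      have hempty : ∀ n, m < n → interior ((Subtype.val : C m → Y) ⁻¹' (P n)) = ∅ := by
        intro n hmn
        rw [Set.eq_empty_iff_forall_notMem]
        intro y hy
        obtain ⟨V, hVP, hV, hyV⟩ := mem_interior.1 hy
        obtain ⟨U, hU, rfl⟩ := isOpen_induced_iff.1 hV
        obtain ⟨N, δ, ⟨t, ht, ht'⟩, hns⟩ := hT m n hmn U hU ⟨y, hyV, y.2⟩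
        refine hns ?_
        have hz : ∀ i, ∃ z : (⋃ n, C n : Set Y), (z : Y) ∈ C n ∧ (f z : Y) = t i := by
          intro i
          have h1 : (⟨t i, (ht i).2⟩ : C m) ∈ (Subtype.val : C m → Y) ⁻¹' U := (ht i).1
          obtain ⟨z, hz, hz'⟩ := hVP h1
          exact ⟨z, hz, hz'⟩
        choose z hz1 hz2 using hz
        refine ⟨fun i => z i, hz1, fun i j hij => (ht' i j hij).trans ?_⟩
        rw [← hz2, ← hz2]
        exact hd (z i) (z j)
      have hfin : (⋃ n ∈ Iic m, (Subtype.val : C m → Y) ⁻¹' (P n)) = univ := by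
        have hcl : IsClosed (⋃ n ∈ Iic m, (Subtype.val : C m → Y) ⁻¹' (P n)) :=
          (Set.finite_Iic m).isClosed_biUnion fun n _ => (hP n).preimage continuous_subtype_val
        have h1 : (⋃ n, interior ((Subtype.val : C m → Y) ⁻¹' (P n))) ⊆
            ⋃ n ∈ Iic m, (Subtype.val : C m → Y) ⁻¹' (P n) := by
          intro y hy
          obtain ⟨n, hn⟩ := mem_iUnion.1 hy
          rcases Nat.lt_or_ge m n with hmn | hmn
          · rw [hempty n hmn] at hn
            exact absurd hn (notMem_empty _)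
          · exact mem_iUnion₂.2 ⟨n, hmn, interior_subset hn⟩
        rw [← hcl.closure_eq]
        exact (hdense.mono h1).closure_eq
      have hmaps : ∀ z : (⋃ n, C n : Set Y), (z : Y) ∈ C m → (g z : Y) ∈ C m := by
        intro z hz
        have h1 : (⟨z, hz⟩ : C m) ∈ (⋃ n ∈ Iic m, (Subtype.val : C m → Y) ⁻¹' (P n)) := by
          rw [hfin]
          exact mem_univ _
        obtain ⟨n, hn, w, hw, hwz⟩ := mem_iUnion₂.1 h1
        have hfw : f w = z := Subtype.ext hwz
        have hgz : g z = w := by rw [← hfw, hgf]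
        rw [hgz]
        rcases Nat.lt_or_eq_of_le (show n ≤ m from hn) with hlt | heq
        · have h2 := ih n hlt w hw
          rw [hfw] at h2
          rw [← h2]
          exact hz
        · rw [← heq]
          exact hw
      -- rigidity
      let g' : Y → Y := fun y => if h : y ∈ ⋃ n, C n then (g ⟨y, h⟩ : Y) else y
      have hg' : ∀ z : (⋃ n, C n : Set Y), g' z = g z := fun z => dif_pos z.2
      have hrig := (hC m).rigid g'
        (fun y hy => by
          have h1 := hmaps ⟨y, hsub m hy⟩ hy
          rw [← hg'] at h1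
          exact h1)
        (fun y hy z hz => by
          have h1 := hgd ⟨y, hsub m hy⟩ ⟨z, hsub m hz⟩
          rw [Subtype.dist_eq, Subtype.dist_eq, ← hg', ← hg'] at h1
          exact h1)
      intro z hz
      have h1 := hrig z hz
      rw [hg'] at h1
      have h2 : g z = z := Subtype.ext h1
      calc f z = f (g z) := by rw [h2]
        _ = z := hfg z
  funext z
  obtain ⟨m, hm⟩ := mem_iUnion.1 z.2
  exact key m z hm

lemma Good.not_countable {C : Set Y} (hC : Good C) : ¬ C.Countable := by
  intro h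
  have hcomp : CompactSpace C := isCompact_iff_compactSpace.1 hC.compact
  have hcount : Countable C := h.to_subtype
  have hne : Nonempty C := hC.nonempty.to_subtype
  obtain ⟨y, hy⟩ := nonempty_interior_of_iUnion_of_closed (X := C) (f := fun y : C => {y})
    (fun y => isClosed_singleton) (eq_univ_of_forall fun y => mem_iUnion.2 ⟨y, rfl⟩)
  obtain ⟨z, hz⟩ := hy
  obtain ⟨V, hVy, hV, hzV⟩ := mem_interior.1 hz
  obtain ⟨U, hU, rfl⟩ := isOpen_induced_iff.1 hV
  have h1 := hC.infinite U hU ⟨z, hzV, z.2⟩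
  refine h1 ((Set.finite_singleton (y : Y)).subset fun w hw => ?_)
  have h2 : (⟨w, hw.2⟩ : C) ∈ (Subtype.val : C → Y) ⁻¹' U := hw.1
  exact congrArg Subtype.val (hVy h2)

end scheme

/-- **Every `k`-crowded separable metric space contains a subspace which is plastic, dense,
`σ`-compact and `k`-crowded; moreover the identity is its only non-expansive bijection.** -/
theorem result (Y : Type u) [MetricSpace Y] [SeparableSpace Y] (hY : KCrowded Y) :
    ∃ X : Set Y, Plastic X ∧ Dense X ∧ IsSigmaCompact X ∧ KCrowded X ∧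
      ∀ f : X → X, Function.Bijective f → (∀ x y, dist (f x) (f y) ≤ dist x y) → f = id := by
  have hsc : SecondCountableTopology Y := UniformSpace.secondCountable_of_separable Y
  rcases isEmpty_or_nonempty Y with hempty | hnonempty
  · refine ⟨∅, fun f _ _ x => absurd x.2 (notMem_empty _), fun y => (hempty.false y).elim,
      isSigmaCompact_empty, fun U _ hU => ?_, fun f _ _ => funext fun x => absurd x.2
        (notMem_empty _)⟩
    obtain ⟨x, -⟩ := hU
    exact absurd x.2 (notMem_empty _)
  have hBne : Nonempty (countableBasis Y) := by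
    obtain ⟨y⟩ := hnonempty
    obtain ⟨b, hb, -, -⟩ := (isBasis_countableBasis Y).exists_subset_of_mem_open (mem_univ y)
      isOpen_univ
    exact ⟨⟨b, hb⟩⟩
  have hBc : Countable (countableBasis Y) := (countable_countableBasis Y).to_subtype
  obtain ⟨O, hO⟩ := exists_surjective_nat (countableBasis Y)
  obtain ⟨C, hC, hCO, hT⟩ := exists_seq hY (fun n => (O n : Set Y))
    (fun n => isOpen_of_mem_countableBasis (O n).2)
    (fun n => nonempty_of_mem_countableBasis (O n).2)
  have hopen : ∀ U : Set Y, IsOpen U → U.Nonempty → ∃ n, C n ⊆ U := by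
    rintro U hU ⟨y, hy⟩
    obtain ⟨b, hb, -, hbU⟩ := (isBasis_countableBasis Y).exists_subset_of_mem_open hy hU
    obtain ⟨n, hn⟩ := hO ⟨b, hb⟩
    refine ⟨n, (hCO n).trans ?_⟩
    show (O n : Set Y) ⊆ U
    rw [hn]
    exact hbU
  have hid : ∀ f : (⋃ n, C n : Set Y) → (⋃ n, C n : Set Y), Function.Bijective f →
      (∀ x y, dist (f x) (f y) ≤ dist x y) → f = id := fun f hf hd => eq_id hC hT f hf hd
  refine ⟨⋃ n, C n, ?_, ?_, ?_, ?_, hid⟩
  · intro f hf hd x y
    rw [hid f hf hd]
    rfl
  · rw [dense_iff_inter_open]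
    intro U hU hne
    obtain ⟨n, hn⟩ := hopen U hU hne
    obtain ⟨y, hy⟩ := (hC n).nonempty
    exact ⟨y, hn hy, mem_iUnion.2 ⟨n, hy⟩⟩
  · exact isSigmaCompact_iUnion_of_isCompact C fun n => (hC n).compact
  · intro U hU hne
    obtain ⟨V, hV, rfl⟩ := isOpen_induced_iff.1 hU
    obtain ⟨x, hx⟩ := hne
    obtain ⟨n, hn⟩ := hopen V hV ⟨x, hx⟩
    have himg : (Subtype.val '' ((Subtype.val : (⋃ n, C n : Set Y) → Y) ⁻¹' C n)) = C n := by
      rw [Subtype.image_preimage_coe]
      exact inter_eq_right.2 (subset_iUnion C n)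
    refine ⟨Subtype.val ⁻¹' C n, preimage_mono hn, ?_, fun h => ?_⟩
    · rw [Subtype.isCompact_iff, himg]
      exact (hC n).compact
    · refine (hC n).not_countable ?_
      rw [← himg]
      exact h.image _

end Pool.Agent.Results.MP_4aa5c9_gt.PlasticSubspace
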